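import Pool.Agent.Q147.MO.NT

/-!
# Products of rapidly increasing primes without divisors in a thin set
-/

set_option autoImplicit false

namespace Pool.Agent.Q147.MP

open Finset Filter Topology
open Pool.Agent.Q147.MM Pool.Agent.Q147.MO
open Pool.Agent.Q211.MM (gpf gpf_spec div_mem_Sk)

/-- the products of rapidly increasing primes without a divisor `> 1` in `X` -/
def LD (C : ℕ → ℕ → Prop) (X : Set ℕ) : Set ℕ := {n | Lac C ∅ n ∧ ∀ x ∈ X, x ∣ n → x = 1}

theorem Lac.of_dvd {C : ℕ → ℕ → Prop} (hC : Adm C) {n : ℕ} (h : Lac C ∅ n) :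
    ∀ d : ℕ, d ∣ n → Lac C ∅ d := by
  induction h with
  | one =>
    intro d hd
    rw [Nat.dvd_one.1 hd]
    exact Lac.one
  | mul a q ha hq hc _ ih =>
    intro d hd
    by_cases hqd : q ∣ d
    · obtain ⟨e, rfl⟩ := hqd
      have h1 : e ∣ a := by
        rw [Nat.mul_comm a q] at hd
        exact Nat.dvd_of_mul_dvd_mul_left hq.pos hd
      rw [Nat.mul_comm q e]
      exact Lac.mul e q (ih e h1) hq (hC.mono (Nat.le_of_dvd ha.pos h1) hc) (Set.notMem_empty _)
    · have h1 : Nat.Coprime d q := ((Nat.Prime.coprime_iff_not_dvd hq).2 hqd).symm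
      exact ih d (h1.dvd_of_dvd_mul_right hd)

theorem LD.dvd {C : ℕ → ℕ → Prop} (hC : Adm C) {X : Set ℕ} {n d : ℕ} (h : n ∈ LD C X) (hd : d ∣ n) :
    d ∈ LD C X :=
  ⟨Lac.of_dvd hC h.1 d hd, fun x hx hxd => h.2 x hx (hxd.trans hd)⟩

theorem LD.lac {C : ℕ → ℕ → Prop} {X : Set ℕ} {n : ℕ} (h : n ∈ LD C X) : Lac C X n := by
  obtain ⟨h1, h2⟩ := h
  induction h1 with
  | one => exact Lac.one
  | mul a q ha hq hc _ ih =>
    refine Lac.mul a q (ih fun x hx hxa => h2 x hx (hxa.trans (Dvd.intro _ rfl))) hq hc fun h3 => ?_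
    have h4 := h2 _ h3 dvd_rfl
    have h5 := Nat.eq_one_of_mul_eq_one_left h4
    exact hq.ne_one h5

theorem LD.anti {C : ℕ → ℕ → Prop} {X Y : Set ℕ} (hXY : X ⊆ Y) : LD C Y ⊆ LD C X :=
  fun _ h => ⟨h.1, fun x hx => h.2 x (hXY hx)⟩

theorem LD.pos {C : ℕ → ℕ → Prop} {X : Set ℕ} {n : ℕ} (h : n ∈ LD C X) : 0 < n := Lac.pos h.1

/-- the integers outside -/
theorem count_notLD (C : ℕ → ℕ → Prop) (X : Set ℕ) (k N z e : ℕ)
    (he : ∀ a q : ℕ, 1 ≤ a → a ≤ z → q.Prime → a * q ≤ N → ¬ C a q → a * q ≤ e) :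
    cnt (Sk (k + 1) \ LD C X) N ≤
      1 + ∑ a ∈ upto (Sk k \ LD C X) z, Nat.primeCounting (N / a) +
        (BadZ (k + 1) N z).card + e + ∑ m ∈ Icc 1 z, cnt X (N / m) := by
  classical
  set LS : Set ℕ := LD C X with hLS
  let s1 : Finset ℕ := (upto (Sk (k + 1) \ LS) N).filter
    (fun n => n ≠ 1 ∧ n / gpf n ≤ z ∧ n / gpf n ∉ LS)
  have h1 : s1.card ≤ ∑ a ∈ upto (Sk k \ LS) z, Nat.primeCounting (N / a) := by
    refine card_pairs _ _ _ _ fun n hn => ?_
    rw [Finset.mem_filter, mem_upto] at hn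
    obtain ⟨⟨⟨hn1, hnN⟩, hn2⟩, hn3, hn4, hn5⟩ := hn
    obtain ⟨g1, g2, g3⟩ := gpf_spec (n := n) (by omega)
    have hmul : n / gpf n * gpf n = n := Nat.div_mul_cancel g2
    refine ⟨n / gpf n, gpf n, hmul.symm, ⟨div_mem_Sk hn2.1 g1 g2, hn5⟩, ?_, hn4, g1, hnN⟩
    exact Nat.div_pos (Nat.le_of_dvd (by omega) g2) g1.pos
  let s2 : Finset ℕ := ((Icc 1 z).sigma fun m => upto X (N / m)).image (fun p => p.1 * p.2)
  have hs2 : s2.card ≤ ∑ m ∈ Icc 1 z, cnt X (N / m) := by
    refine Finset.card_image_le.trans ?_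
    rw [Finset.card_sigma]
    exact le_rfl
  have h2 : upto (Sk (k + 1) \ LS) N ⊆
      {1} ∪ s1 ∪ BadZ (k + 1) N z ∪ Icc 1 e ∪ s2 := by
    intro n hn
    have hn' := hn
    rw [mem_upto] at hn
    obtain ⟨⟨hn1, hnN⟩, hn2⟩ := hn
    rw [Finset.mem_union, Finset.mem_union, Finset.mem_union, Finset.mem_union,
      Finset.mem_singleton]
    by_cases h3 : n = 1
    · exact Or.inl (Or.inl (Or.inl (Or.inl h3)))
    obtain ⟨g1, g2, g3⟩ := gpf_spec (n := n) (by omega)
    have hmul : n / gpf n * gpf n = n := Nat.div_mul_cancel g2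
    have hpos : 1 ≤ n / gpf n := Nat.div_pos (Nat.le_of_dvd (by omega) g2) g1.pos
    by_cases h4 : z < n / gpf n
    · refine Or.inl (Or.inl (Or.inr ?_))
      rw [BadZ, Finset.mem_filter, mem_upto]
      exact ⟨⟨⟨hn1, hnN⟩, hn2.1⟩, h3, h4⟩
    by_cases h5 : n / gpf n ∈ LS
    · by_cases h6 : C (n / gpf n) (gpf n)
      · -- a divisor in `X`
        refine Or.inr ?_
        have h7 : Lac C ∅ n := by
          have h8 : Lac C ∅ (n / gpf n * gpf n) :=
            Lac.mul (n / gpf n) (gpf n) h5.1 g1 h6 (Set.notMem_empty _)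
          rw [hmul] at h8
          exact h8
        obtain ⟨x, hx, hxn, hx1⟩ : ∃ x ∈ X, x ∣ n ∧ x ≠ 1 := by
          by_contra hno
          push Not at hno
          exact hn2.2 ⟨h7, hno⟩
        have h8 : ¬ x ∣ n / gpf n := fun h => hx1 (h5.2 x hx h)
        have h9 : gpf n ∣ x := by
          by_contra hq
          have h10 : Nat.Coprime x (gpf n) := ((Nat.Prime.coprime_iff_not_dvd g1).2 hq).symm
          rw [← hmul] at hxn
          exact h8 (h10.dvd_of_dvd_mul_right hxn)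
        obtain ⟨m, hm⟩ := hxn
        have hxpos : 0 < x := Nat.pos_of_ne_zero fun h => by
          rw [h, Nat.zero_mul] at hm
          omega
        have hmpos : 0 < m := Nat.pos_of_ne_zero fun h => by
          rw [h, Nat.mul_zero] at hm
          omega
        obtain ⟨y, rfl⟩ := h9
        have h11 : n / gpf n = y * m := by
          refine Nat.div_eq_of_eq_mul_right g1.pos ?_
          rw [← Nat.mul_assoc]
          exact hm
        have hypos : 0 < y := Nat.pos_of_ne_zero fun h => by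
          rw [h, Nat.mul_zero] at hxpos
          omega
        have h12 : m ≤ z := by
          have h13 : m ≤ y * m := Nat.le_mul_of_pos_left m hypos
          omega
        refine Finset.mem_image.2 ⟨⟨m, gpf n * y⟩, ?_, ?_⟩
        · rw [Finset.mem_sigma, Finset.mem_Icc, mem_upto]
          refine ⟨⟨hmpos, h12⟩, ⟨hxpos, ?_⟩, hx⟩
          show gpf n * y ≤ N / m
          rw [Nat.le_div_iff_mul_le hmpos, ← hm]
          exact hnN
        · show m * (gpf n * y) = n
          rw [Nat.mul_comm]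
          exact hm.symm
      · refine Or.inl (Or.inr ?_)
        rw [Finset.mem_Icc]
        have h7 := he (n / gpf n) (gpf n) hpos (by omega) g1 (by rw [hmul]; exact hnN) h6
        rw [hmul] at h7
        exact ⟨hn1, h7⟩
    · refine Or.inl (Or.inl (Or.inl (Or.inr ?_)))
      rw [Finset.mem_filter]
      exact ⟨hn', h3, by omega, h5⟩
  have h3 := Finset.card_le_card h2
  have h8 := Finset.card_union_le ({1} ∪ s1 ∪ BadZ (k + 1) N z ∪ Icc 1 e) s2
  have h4 := Finset.card_union_le ({1} ∪ s1 ∪ BadZ (k + 1) N z) (Icc 1 e)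
  have h5 := Finset.card_union_le ({1} ∪ s1) (BadZ (k + 1) N z)
  have h6 := Finset.card_union_le {1} s1
  rw [Finset.card_singleton] at h6
  have h7 : (Icc 1 e).card = e := by simp
  unfold cnt at *
  omega

/-- **Almost all integers with at most `k` prime factors are products of rapidly increasing primes
without divisors in a thin set.** -/
theorem ld_dense (C : ℕ → ℕ → Prop) (X : Set ℕ) (M : ℕ) (z e : ℕ → ℕ)
    (hz : ∀ᶠ N : ℕ in atTop, 1 ≤ z N ∧ N ≤ z N ^ M)
    (he : ∀ N a q : ℕ, 1 ≤ a → a ≤ z N → q.Prime → a * q ≤ N → ¬ C a q → a * q ≤ e N)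
    (he0 : ∀ k, Tendsto (fun N : ℕ => (e N : ℝ) / cnt (Sk (k + 1)) N) atTop (𝓝 0))
    (hX : ∀ k, Tendsto (fun N : ℕ => (∑ m ∈ Icc 1 (z N), (cnt X (N / m) : ℝ)) /
      cnt (Sk (k + 1)) N) atTop (𝓝 0))
    (k : ℕ) (hk : 1 ≤ k) :
    Tendsto (fun N : ℕ => (cnt (Sk k \ LD C X) N : ℝ) / cnt (Sk k) N) atTop (𝓝 0) := by
  have step : ∀ k : ℕ, Tendsto (fun N : ℕ =>
      (∑ a ∈ upto (Sk k \ LD C X) (z N), (Nat.primeCounting (N / a) : ℝ)) /
        cnt (Sk (k + 1)) N) atTop (𝓝 0) →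
      Tendsto (fun N : ℕ => (cnt (Sk (k + 1) \ LD C X) N : ℝ) / cnt (Sk (k + 1)) N)
        atTop (𝓝 0) := by
    intro k h
    have h1 := ((((negl_const k 1).add h).add (badz_negl k M z hz)).add (he0 k)).add (hX k)
    simp only [add_zero] at h1
    refine squeeze_zero (fun N => by positivity) (fun N => ?_) h1
    rw [← add_div, ← add_div, ← add_div, ← add_div]
    refine div_le_div_of_nonneg_right ?_ (Nat.cast_nonneg _)
    exact_mod_cast count_notLD C X k N (z N) (e N) (he N)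
  induction k, hk using Nat.le_induction with
  | base =>
    refine step 0 ?_
    have h0 : ∀ N, upto (Sk 0 \ LD C X) (z N) = ∅ := by
      intro N
      rw [Finset.eq_empty_iff_forall_notMem]
      intro n hn
      rw [mem_upto] at hn
      obtain ⟨-, hn1, hn2⟩ := hn
      have h5 := hn1.2
      have h6 : ArithmeticFunction.cardFactors n = 0 := by omega
      rw [ArithmeticFunction.cardFactors_eq_zero_iff_eq_zero_or_one] at h6
      have h7 := h6.resolve_left hn1.1
      rw [h7] at hn2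
      exact hn2 ⟨Lac.one, fun x _ hx => Nat.dvd_one.1 hx⟩
    simp only [h0, Finset.sum_empty, zero_div]
    exact tendsto_const_nhds
  | succ k hk ih => exact step k (absum k hk _ ih z)

/-- **Densities for the relation `a ^ K ≤ q`.** -/
theorem ld_CK (K : ℕ) (hK : 1 ≤ K) (X : Set ℕ) (D s : ℝ) (hD : 0 ≤ D) (hs0 : 0 ≤ s) (hs : s < 3 / 4)
    (hX : ∀ N : ℕ, (cnt X N : ℝ) ≤ D * (N : ℝ) ^ s) (k : ℕ) (hk : 1 ≤ k) :
    Tendsto (fun N : ℕ => (cnt (Sk k \ LD (CK K) X) N : ℝ) / cnt (Sk k) N) atTop (𝓝 0) := by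
  refine ld_dense (CK K) X (4 * (K + 1)) (zK K) (fun N => zK K N ^ (K + 1)) (zK_ev K) ?_ ?_ ?_ k hk
  · intro N a q ha haz hq _ hc
    rw [CK, not_and_or] at hc
    rcases hc with hc | hc
    · calc a * q ≤ a * a := Nat.mul_le_mul_left a (by omega)
        _ = a ^ 2 := (sq a).symm
        _ ≤ a ^ (K + 1) := Nat.pow_le_pow_right ha (by omega)
        _ ≤ zK K N ^ (K + 1) := Nat.pow_le_pow_left haz _
    · calc a * q ≤ a * a ^ K := Nat.mul_le_mul_left a (by omega)
        _ = a ^ (K + 1) := by rw [pow_succ, Nat.mul_comm]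
        _ ≤ zK K N ^ (K + 1) := Nat.pow_le_pow_left haz _
  · intro k
    refine negl_rpow 1 (1 / 2) (by norm_num) _ ?_ k
    filter_upwards [eventually_ge_atTop 1] with N hN
    refine ⟨Nat.cast_nonneg _, ?_⟩
    have h1 : (((zK K N ^ (K + 1) : ℕ) : ℝ)) ^ 2 ≤ N := by exact_mod_cast zK_pow K N hN
    rw [one_mul, ← Real.sqrt_eq_rpow]
    exact Real.le_sqrt_of_sq_le h1
  · intro k
    refine negl_rpow D (s + 1 / 4) (by linarith) _ ?_ k
    filter_upwards [eventually_ge_atTop 1] with N hN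
    have hN0 : (0 : ℝ) < N := by exact_mod_cast hN
    refine ⟨Finset.sum_nonneg fun _ _ => Nat.cast_nonneg _, ?_⟩
    have hz : ((zK K N : ℕ) : ℝ) ≤ (N : ℝ) ^ (1 / 4 : ℝ) := by
      have h1 : zK K N ^ 4 ≤ N := by
        refine le_trans ?_ (zK_pow K N hN)
        rw [← pow_mul]
        exact Nat.pow_le_pow_right (by rw [zK]; positivity) (by omega)
      have h2 : ((zK K N : ℕ) : ℝ) ^ (4 : ℕ) ≤ N := by exact_mod_cast h1
      have h3 : ((zK K N : ℕ) : ℝ) = (((zK K N : ℕ) : ℝ) ^ (4 : ℕ)) ^ (1 / 4 : ℝ) := by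
        rw [← Real.rpow_natCast, ← Real.rpow_mul (Nat.cast_nonneg _)]
        norm_num
      rw [h3]
      exact Real.rpow_le_rpow (by positivity) h2 (by norm_num)
    calc ∑ m ∈ Icc 1 (zK K N), (cnt X (N / m) : ℝ) ≤ ∑ m ∈ Icc 1 (zK K N), D * (N : ℝ) ^ s := by
          refine Finset.sum_le_sum fun m hm => (hX (N / m)).trans ?_
          refine mul_le_mul_of_nonneg_left ?_ hD
          refine Real.rpow_le_rpow (Nat.cast_nonneg _) ?_ hs0
          exact_mod_cast Nat.div_le_self N m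
      _ = (zK K N : ℝ) * (D * (N : ℝ) ^ s) := by
          rw [Finset.sum_const, Nat.card_Icc, nsmul_eq_mul]
          simp
      _ ≤ (N : ℝ) ^ (1 / 4 : ℝ) * (D * (N : ℝ) ^ s) :=
          mul_le_mul_of_nonneg_right hz (by positivity)
      _ = D * (N : ℝ) ^ (s + 1 / 4) := by
          rw [Real.rpow_add hN0]
          ring

end Pool.Agent.Q147.MP
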