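import Pool.Agent.Q147.MP.StructB
import Pool.Agent.Q147.MP.Div

/-!
# One divisor-closed set for all degrees and all coefficient spaces of a sequence
-/

set_option autoImplicit false

namespace Pool.Agent.Q147.MP

open Module Finset Filter Topology
open Pool.Agent.Q147.MM Pool.Agent.Q147.MO
open Pool.Agent.Y787 (QC mem_QC HypC)
open Pool.Agent.Q95.MM (cnt_le_self one_mem_Sk cnt_Sk_pos upto_mono upto_diff sum_diff cnt_diff)

/-- **Diagonal sets for all degrees.** -/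
theorem diag1 (B : ℕ → Set ℕ)
    (h : ∀ m k : ℕ, Tendsto (fun N : ℕ => (cnt (Sk (k + 1) \ B m) N : ℝ) / cnt (Sk (k + 1)) N)
      atTop (𝓝 0)) :
    ∃ M : ℕ → ℕ, Monotone M ∧ ∀ k : ℕ, Tendsto (fun N : ℕ =>
      (cnt (Sk (k + 1) \ {n | n ∈ B 0 ∧ ∀ m, M m ≤ n → ∀ i < m + 1, n ∈ B i}) N : ℝ) /
        cnt (Sk (k + 1)) N) atTop (𝓝 0) := by
  classical
  -- decreasing intersections
  let D : ℕ → Set ℕ := fun m => {n | ∀ i < m + 1, n ∈ B i}
  have hD : ∀ m k, Tendsto (fun N : ℕ => (cnt (Sk (k + 1) \ D m) N : ℝ) / cnt (Sk (k + 1)) N)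
      atTop (𝓝 0) := by
    intro m k
    have h1 : Tendsto (fun N : ℕ => ∑ i ∈ range (m + 1),
        (cnt (Sk (k + 1) \ B i) N : ℝ) / cnt (Sk (k + 1)) N) atTop (𝓝 0) := by
      have := tendsto_finsetSum (range (m + 1)) fun i _ => h i k
      simpa using this
    refine squeeze_zero (fun N => by positivity) (fun N => ?_) h1
    rw [← Finset.sum_div]
    refine div_le_div_of_nonneg_right ?_ (Nat.cast_nonneg _)
    have h2 : upto (Sk (k + 1) \ D m) N ⊆
        (range (m + 1)).biUnion fun i => upto (Sk (k + 1) \ B i) N := by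
      intro n hn
      rw [mem_upto] at hn
      rw [Finset.mem_biUnion]
      by_contra h3
      refine hn.2.2 ?_
      intro i hi
      by_contra h5
      exact h3 ⟨i, Finset.mem_range.2 hi, mem_upto.2 ⟨hn.1, hn.2.1, h5⟩⟩
    have h3 := (Finset.card_le_card h2).trans Finset.card_biUnion_le
    unfold cnt
    exact_mod_cast h3
  have hthr : ∀ m : ℕ, ∃ t : ℕ, ∀ N : ℕ, t ≤ N → ∀ k ∈ range (m + 1),
      (cnt (Sk (k + 1) \ D m) N : ℝ) / cnt (Sk (k + 1)) N < 1 / ((m : ℝ) + 1) := by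
    intro m
    refine eventually_atTop.1 ?_
    rw [Filter.eventually_all_finset]
    intro k _
    exact (tendsto_order.1 (hD m k)).2 _ (by positivity)
  choose t ht using hthr
  let M : ℕ → ℕ := fun m => m + ∑ j ∈ range (m + 1), t j
  have hMt : ∀ m, t m ≤ M m := fun m =>
    (Finset.single_le_sum (f := t) (fun _ _ => Nat.zero_le _)
      (Finset.mem_range.2 (Nat.lt_succ_self m))).trans (Nat.le_add_left _ _)
  have hMm : ∀ m, m ≤ M m := fun m => Nat.le_add_right _ _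
  have hMmono : StrictMono M := by
    refine strictMono_nat_of_lt_succ fun m => ?_
    show m + ∑ j ∈ range (m + 1), t j < m + 1 + ∑ j ∈ range (m + 1 + 1), t j
    rw [Finset.sum_range_succ t (m + 1)]
    omega
  let C : Set ℕ := {n | n ∈ B 0 ∧ ∀ m, M m ≤ n → ∀ i < m + 1, n ∈ B i}
  have key : ∀ k N j : ℕ, k ≤ j → M j ≤ N → N < M (j + 1) →
      (cnt (Sk (k + 1) \ C) N : ℝ) / cnt (Sk (k + 1)) N < 1 / ((j : ℝ) + 1) := by
    intro k N j hkj hj hj1
    refine lt_of_le_of_lt ?_ (ht j N ((hMt j).trans hj) k (Finset.mem_range.2 (by omega)))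
    refine div_le_div_of_nonneg_right ?_ (Nat.cast_nonneg _)
    have h2 : upto (Sk (k + 1) \ C) N ⊆ upto (Sk (k + 1) \ D j) N := by
      intro n hn
      rw [mem_upto] at hn ⊢
      refine ⟨hn.1, hn.2.1, fun h3 => hn.2.2 ⟨h3 0 (Nat.succ_pos j), fun m hm => ?_⟩⟩
      have h4 : m ≤ j := by
        by_contra h4
        have h5 : M (j + 1) ≤ M m := hMmono.monotone (by omega)
        have := hn.1.2
        omega
      exact fun i hi => h3 i (by omega)
    exact_mod_cast Finset.card_le_card h2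
  refine ⟨M, hMmono.monotone, fun k => ?_⟩
  rw [tendsto_order]
  constructor
  · intro a ha
    exact Eventually.of_forall fun N => lt_of_lt_of_le ha (by positivity)
  · intro a ha
    obtain ⟨m, hm⟩ := exists_nat_one_div_lt ha
    filter_upwards [eventually_ge_atTop (M (m + k))] with N hN
    -- the block of `N`
    obtain ⟨j, hj1, hj2⟩ : ∃ j, M j ≤ N ∧ N < M (j + 1) := by
      have hex : ∃ j, N < M (j + 1) := ⟨N, (Nat.lt_succ_self N).trans_le (hMm (N + 1))⟩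
      refine ⟨Nat.find hex, ?_, Nat.find_spec hex⟩
      rcases Nat.eq_zero_or_pos (Nat.find hex) with h0 | h0
      · rw [h0]
        exact (hMmono.monotone (Nat.zero_le (m + k))).trans hN
      · have := Nat.find_min hex (m := Nat.find hex - 1) (by omega)
        have h1 : Nat.find hex - 1 + 1 = Nat.find hex := by omega
        rw [h1] at this
        omega
    have hmj : m + k ≤ j := by
      by_contra h4
      have h5 : M (j + 1) ≤ M (m + k) := hMmono.monotone (by omega)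
      omega
    have h3 := key k N j (by omega) hj1 hj2
    have h4 : 1 / ((j : ℝ) + 1) ≤ 1 / ((m : ℝ) + 1) := by
      apply one_div_le_one_div_of_le (by positivity)
      have : (m : ℝ) ≤ j := by exact_mod_cast (by omega : m ≤ j)
      linarith
    exact lt_of_lt_of_le h3 (h4.trans hm.le)

/-- the number of elements of a union -/
theorem cnt_iUnion (X : ℕ → Set ℕ) (R N : ℕ) :
    cnt {n | ∃ r < R, n ∈ X r} N ≤ ∑ r ∈ range R, cnt (X r) N := by
  classical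
  have h : upto {n | ∃ r < R, n ∈ X r} N ⊆ (range R).biUnion fun r => upto (X r) N := by
    intro n hn
    rw [mem_upto] at hn
    obtain ⟨hn1, r, hr, hn2⟩ := hn
    exact Finset.mem_biUnion.2 ⟨r, Finset.mem_range.2 hr, mem_upto.2 ⟨hn1, hn2⟩⟩
  exact (Finset.card_le_card h).trans Finset.card_biUnion_le

variable {Cc : Type} [Field Cc] [CharZero Cc] {Lt : Submodule (QC Cc) Cc} [HypC Lt] {l : ℕ → Cc}

/-- the coefficient space with the constants -/
noncomputable abbrev V1 (W : Submodule (QC Cc) Cc) : Submodule (QC Cc) Cc :=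
  W ⊔ Submodule.span (QC Cc) ({1} : Set Cc)

/-- **One divisor-closed set for a sequence of coefficient spaces.** -/
theorem mainB (h : Good Lt l) (W : ℕ → Submodule (QC Cc) Cc)
    (hW : ∀ m, FiniteDimensional (QC Cc) (W m)) :
    ∃ (B : Set ℕ) (M : ℕ → ℕ), Monotone M ∧ 1 ∈ B ∧
      (∀ n ∈ B, Lac (CK 3) ∅ n) ∧ (∀ n ∈ B, ∀ d, d ∣ n → d ∈ B) ∧
      (∀ k : ℕ, Tendsto (fun N : ℕ => (cnt (Sk (k + 1) \ B) N : ℝ) / cnt (Sk (k + 1)) N)
        atTop (𝓝 0)) ∧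
      (∀ n ∈ B, ∀ m, M m ≤ n → ∀ u ∈ V1 (W m), u * lam l n ∈ Bel (CK 3) l (V1 (W m)) n → u = 0) ∧
      (∀ n ∈ B, ∀ m, M m ≤ n → n ≠ 1 → ∀ u ∈ V1 (W m),
        u * lam l n ∈ Lt ⊔ Bel (CK 3) l (V1 (W m)) n →
        u ∈ Submodule.span (QC Cc) ({1} : Set Cc) ∧
          (2 ≤ ArithmeticFunction.cardFactors n → u = 0)) := by
  classical
  have h1 := fun m => structB (CK.adm 3) h (W m)
  choose X hX1 hX2 hX3 using h1
  -- unions
  let Y : ℕ → Set ℕ := fun m => {n | ∃ r < m + 1, n ∈ X r}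
  let R : ℕ → ℕ := fun m => finrank (QC Cc) (W m) + 1
  have hXc : ∀ m N : ℕ, (cnt (X m) N : ℝ) ≤ 4 * (R m : ℝ) ^ 2 * (N : ℝ) ^ (1 / 2 : ℝ) := by
    intro m N
    rcases Nat.eq_zero_or_pos N with rfl | hN
    · have h0 : cnt (X m) 0 = 0 := by
        have := cnt_le_self (X m) 0
        omega
      rw [h0, Nat.cast_zero]
      positivity
    obtain ⟨hb, hz⟩ := CK.bd' 3 N hN
    have h2 := hX1 m N _ hb
    set z := ⌊(N : ℝ) ^ (1 / (((3 : ℕ) : ℝ) + 1))⌋₊ with hzdef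
    have h3 : ((z : ℕ) : ℝ) ^ 2 ≤ (N : ℝ) ^ (1 / 2 : ℝ) := by
      refine hz.trans (le_of_eq ?_)
      congr 1
      norm_num
    have h4 : (cnt (X m) N : ℝ) ≤ 2 * (((R m : ℝ) * z) ^ 2 + R m) := by exact_mod_cast h2
    have h5 : (1 : ℝ) ≤ (N : ℝ) ^ (1 / 2 : ℝ) :=
      Real.one_le_rpow (by exact_mod_cast hN) (by norm_num)
    have h6 : (R m : ℝ) ≤ (R m : ℝ) ^ 2 := by
      have : (1 : ℝ) ≤ R m := by exact_mod_cast Nat.succ_pos _
      nlinarith
    have h7 : ((R m : ℝ) * z) ^ 2 ≤ (R m : ℝ) ^ 2 * (N : ℝ) ^ (1 / 2 : ℝ) := by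
      rw [mul_pow]
      exact mul_le_mul_of_nonneg_left h3 (by positivity)
    have h8 : (R m : ℝ) ≤ (R m : ℝ) ^ 2 * (N : ℝ) ^ (1 / 2 : ℝ) := by
      calc (R m : ℝ) ≤ (R m : ℝ) ^ 2 * 1 := by rw [mul_one]; exact h6
        _ ≤ (R m : ℝ) ^ 2 * (N : ℝ) ^ (1 / 2 : ℝ) := mul_le_mul_of_nonneg_left h5 (by positivity)
    linarith
  have hYc : ∀ m N : ℕ, (cnt (Y m) N : ℝ) ≤
      (∑ r ∈ range (m + 1), 4 * (R r : ℝ) ^ 2) * (N : ℝ) ^ (1 / 2 : ℝ) := by
    intro m N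
    have h2 : (cnt (Y m) N : ℝ) ≤ ∑ r ∈ range (m + 1), (cnt (X r) N : ℝ) := by
      exact_mod_cast cnt_iUnion X (m + 1) N
    refine h2.trans ?_
    rw [Finset.sum_mul]
    exact Finset.sum_le_sum fun r _ => hXc r N
  have hdens : ∀ m k : ℕ, Tendsto (fun N : ℕ =>
      (cnt (Sk (k + 1) \ LD (CK 3) (Y m)) N : ℝ) / cnt (Sk (k + 1)) N) atTop (𝓝 0) := fun m k =>
    ld_CK 3 (by norm_num) (Y m) _ (1 / 2) (Finset.sum_nonneg fun r _ => by positivity)
      (by norm_num) (by norm_num) (hYc m) (k + 1) (Nat.succ_pos k)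
  obtain ⟨M, hM, hMd⟩ := diag1 (fun m => LD (CK 3) (Y m)) hdens
  have hdv : ∀ m n d : ℕ, n ∈ LD (CK 3) (Y m) → d ∣ n → d ∈ LD (CK 3) (Y m) := fun m n d h hd =>
    LD.dvd (CK.adm 3) h hd
  have hlac : ∀ n m, n ∈ LD (CK 3) (Y m) → Lac (CK 3) (X m) n := by
    intro n m hn
    have h1 : X m ⊆ Y m := fun x hx => ⟨m, Nat.lt_succ_self m, hx⟩
    exact Lac.mono h1 (LD.lac hn)
  let B : Set ℕ := {n | n ∈ LD (CK 3) (Y 0) ∧ ∀ m, M m ≤ n → ∀ i < m + 1, n ∈ LD (CK 3) (Y i)}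
  have hone : ∀ m, 1 ∈ LD (CK 3) (Y m) := fun m => ⟨Lac.one, fun x _ hx => Nat.dvd_one.1 hx⟩
  refine ⟨B, M, hM, ⟨hone 0, fun m _ i _ => hone i⟩, ?_, ?_, hMd, ?_, ?_⟩
  · intro n hn
    exact hn.1.1
  · intro n hn d hd
    refine ⟨hdv 0 n d hn.1 hd, fun m hm i hi => ?_⟩
    exact hdv i n d (hn.2 m (hm.trans (Nat.le_of_dvd (LD.pos hn.1) hd)) i hi) hd
  · intro n hn m hm
    exact hX2 m n (hlac n m (hn.2 m hm m (Nat.lt_succ_self m)))
  · intro n hn m hm
    exact hX3 m n (hlac n m (hn.2 m hm m (Nat.lt_succ_self m)))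

/-- **Relations.** -/
theorem rel0 {V : ℕ → Submodule (QC Cc) Cc} {B : Set ℕ} {M : ℕ → ℕ}
    (hB : ∀ n ∈ B, Lac (CK 3) ∅ n)
    (h0 : ∀ n ∈ B, ∀ m, M m ≤ n → ∀ u ∈ V m, u * lam l n ∈ Bel (CK 3) l (V m) n → u = 0)
    (F : Finset ℕ) (hF : ∀ n ∈ F, n ∈ B) (u : ℕ → Cc)
    (hu : ∀ n ∈ F, n ≠ 1 → u n ≠ 0 → ∃ m, M m ≤ n ∧ ∀ b ∈ F, b ≤ n → u b ∈ V m)
    (hsum : ∑ n ∈ F, u n * lam l n = 0) : ∀ n ∈ F, u n = 0 := by
  classical
  by_contra hne
  push Not at hne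
  obtain ⟨n0, hn0, hun0⟩ := hne
  let T : Finset ℕ := F.filter fun n => u n ≠ 0
  have hT : T.Nonempty := ⟨n0, Finset.mem_filter.2 ⟨hn0, hun0⟩⟩
  obtain ⟨hnF, hun⟩ := Finset.mem_filter.1 (T.max'_mem hT)
  set n := T.max' hT with hn
  have hbig : ∀ b ∈ F, n < b → u b = 0 := by
    intro b hb hnb
    by_contra hub
    have := T.le_max' b (Finset.mem_filter.2 ⟨hb, hub⟩)
    omega
  have h1 : u n * lam l n = - ∑ b ∈ F.erase n, u b * lam l b := by
    rw [← Finset.add_sum_erase F _ hnF] at hsum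
    exact eq_neg_of_add_eq_zero_left hsum
  by_cases hn1 : n = 1
  · -- only the constant term
    have h2 : ∑ b ∈ F.erase n, u b * lam l b = 0 := by
      refine Finset.sum_eq_zero fun b hb => ?_
      rw [Finset.mem_erase] at hb
      have hbpos := Lac.pos (hB b (hF b hb.2))
      rw [hbig b hb.2 (by omega), zero_mul]
    rw [h2, neg_zero, hn1, lam_one, mul_one] at h1
    rw [hn1] at hun
    exact hun h1
  obtain ⟨m, hm, hV⟩ := hu n hnF hn1 hun
  refine hun (h0 n (hF n hnF) m hm (u n) (hV n hnF le_rfl) ?_)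
  rw [h1]
  refine Submodule.neg_mem _ (Submodule.sum_mem _ fun b hb => ?_)
  rw [Finset.mem_erase] at hb
  rcases Nat.lt_or_ge b n with hbn | hbn
  · exact mem_Bel (hV b hb.2 hbn.le) (hB b (hF b hb.2)) hbn
  · rw [hbig b hb.2 (by omega), zero_mul]
    exact Submodule.zero_mem _

/-- **Relations modulo `Lt`.** -/
theorem relM (hG : Good Lt l) {V : ℕ → Submodule (QC Cc) Cc} {B : Set ℕ} {M : ℕ → ℕ}
    (hB : ∀ n ∈ B, Lac (CK 3) ∅ n)
    (h0 : ∀ n ∈ B, ∀ m, M m ≤ n → n ≠ 1 → ∀ u ∈ V m, u * lam l n ∈ Lt ⊔ Bel (CK 3) l (V m) n →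
      u ∈ Submodule.span (QC Cc) ({1} : Set Cc) ∧
        (2 ≤ ArithmeticFunction.cardFactors n → u = 0))
    (F : Finset ℕ) (hF : ∀ n ∈ F, n ∈ B) (u : ℕ → Cc)
    (hu : ∀ n ∈ F, n ≠ 1 → u n ≠ 0 → ∃ m, M m ≤ n ∧ ∀ b ∈ F, b ≤ n → u b ∈ V m)
    (hsum : ∑ n ∈ F, u n * lam l n ∈ Lt) :
    ∀ n ∈ F, n ≠ 1 → u n ∈ Submodule.span (QC Cc) ({1} : Set Cc) ∧
      (2 ≤ ArithmeticFunction.cardFactors n → u n = 0) := by
  classical
  -- the trivial terms
  let P : ℕ → Prop := fun n => u n ∈ Submodule.span (QC Cc) ({1} : Set Cc) ∧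
      (2 ≤ ArithmeticFunction.cardFactors n → u n = 0)
  by_contra hne
  obtain ⟨n0, hn0, hn01, hun0⟩ : ∃ n0 ∈ F, n0 ≠ 1 ∧ ¬ P n0 := by
    by_contra h1
    push Not at h1
    exact hne h1
  let T : Finset ℕ := F.filter fun n => n ≠ 1 ∧ ¬ P n
  have hT : T.Nonempty := ⟨n0, Finset.mem_filter.2 ⟨hn0, hn01, hun0⟩⟩
  obtain ⟨hnF, hn1, hun⟩ := Finset.mem_filter.1 (T.max'_mem hT)
  set n := T.max' hT with hn
  have hpos : ∀ b ∈ F, 0 < b := fun b hb => Lac.pos (hB b (hF b hb))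
  have hbig : ∀ b ∈ F, n < b → P b := by
    intro b hb hnb
    by_contra hub
    have h1 := hpos n hnF
    have := T.le_max' b (Finset.mem_filter.2 ⟨hb, by omega, hub⟩)
    omega
  have hun0 : u n ≠ 0 := fun h => hun ⟨by rw [h]; exact Submodule.zero_mem _, fun _ => h⟩
  obtain ⟨m, hm, hV⟩ := hu n hnF hn1 hun0
  refine hun (h0 n (hF n hnF) m hm hn1 (u n) (hV n hnF le_rfl) ?_)
  have h1 : u n * lam l n = ∑ b ∈ F, u b * lam l b - ∑ b ∈ F.erase n, u b * lam l b := by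
    rw [← Finset.add_sum_erase F _ hnF, add_sub_cancel_right]
  rw [h1]
  refine Submodule.sub_mem _ (Submodule.mem_sup_left hsum) (Submodule.sum_mem _ fun b hb => ?_)
  rw [Finset.mem_erase] at hb
  rcases Nat.lt_or_ge b n with hbn | hbn
  · exact Submodule.mem_sup_right (mem_Bel (hV b hb.2 hbn.le) (hB b (hF b hb.2)) hbn)
  · have hPb := hbig b hb.2 (by omega)
    have hb0 := hpos b hb.2
    have hn0' := hpos n hnF
    rcases Nat.lt_or_ge (ArithmeticFunction.cardFactors b) 2 with h2 | h2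
    · have hpr : b.Prime := by
        rw [← ArithmeticFunction.cardFactors_eq_one_iff_prime]
        have h3 : ArithmeticFunction.cardFactors b ≠ 0 := fun h3 => by
          rw [ArithmeticFunction.cardFactors_eq_zero_iff_eq_zero_or_one] at h3
          omega
        omega
      obtain ⟨c, hc⟩ := Submodule.mem_span_singleton.1 hPb.1
      rw [← hc, smul_mul_assoc, one_mul]
      exact Submodule.mem_sup_left (Lt.smul_mem _ (hG.mem' (Or.inr hpr)))
    · rw [hPb.2 h2, zero_mul]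
      exact Submodule.zero_mem _

end Pool.Agent.Q147.MP
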