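import Pool.Agent.Q147.MO.Struct

/-!
# The structure theorem without bases

`Bel C l V n` is the space spanned by the products `v * lam l b` with `v ∈ V` and a product `b < n` of
rapidly increasing primes.
-/

set_option autoImplicit false

namespace Pool.Agent.Q147.MP

open Module Finset
open Pool.Agent.Q147.MM Pool.Agent.Q147.MO
open Pool.Agent.Y787 (QC mem_QC HypC)

/-- combinations of the new elements of a greedy family are new -/
theorem top_coef {K V : Type*} [Field K] [AddCommGroup V] [Module K V] (v : ℕ → V) (S : Set ℕ)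
    {R n : ℕ} (hnS : n ∈ S) (c : ℕ → K) (h : ∀ i < R, c i ≠ 0 → n ∈ Gi K v S R i)
    (hc : ∑ i ∈ range R, c i • v (n * R + i) ∈
      Submodule.span K (v '' {m | m / R ∈ S ∧ m < n * R})) : ∀ i < R, c i = 0 := by
  classical
  by_contra hne
  push Not at hne
  obtain ⟨i0, hi0, hci0⟩ := hne
  let T : Finset ℕ := (range R).filter fun i => c i ≠ 0
  have hT : T.Nonempty := ⟨i0, Finset.mem_filter.2 ⟨Finset.mem_range.2 hi0, hci0⟩⟩
  have hmem := T.max'_mem hT
  set i := T.max' hT with hi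
  obtain ⟨hiR, hci⟩ := Finset.mem_filter.1 hmem
  rw [Finset.mem_range] at hiR
  refine (h i hiR hci).2 ?_
  have h1 : ∑ j ∈ range R, c j • v (n * R + j) =
      c i • v (n * R + i) + ∑ j ∈ (range R).erase i, c j • v (n * R + j) :=
    (Finset.add_sum_erase _ _ (Finset.mem_range.2 hiR)).symm
  have h2 : ∑ j ∈ (range R).erase i, c j • v (n * R + j) ∈
      Submodule.span K (v '' {m | m ∈ {m | m / R ∈ S} ∧ m < n * R + i}) := by
    refine Submodule.sum_mem _ fun j hj => ?_
    rw [Finset.mem_erase, Finset.mem_range] at hj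
    by_cases hcj : c j = 0
    · rw [hcj, zero_smul]
      exact Submodule.zero_mem _
    · have hjT : j ∈ T := Finset.mem_filter.2 ⟨Finset.mem_range.2 hj.2, hcj⟩
      have hle := T.le_max' j hjT
      refine Submodule.smul_mem _ _ (Submodule.subset_span ⟨n * R + j, ⟨?_, by omega⟩, rfl⟩)
      show (n * R + j) / R ∈ S
      rw [div_code hj.2]
      exact hnS
  have h3 : c i • v (n * R + i) ∈
      Submodule.span K (v '' {m | m ∈ {m | m / R ∈ S} ∧ m < n * R + i}) := by
    have h4 : c i • v (n * R + i) = ∑ j ∈ range R, c j • v (n * R + j) -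
        ∑ j ∈ (range R).erase i, c j • v (n * R + j) := by
      rw [h1, add_sub_cancel_right]
    rw [h4]
    refine Submodule.sub_mem _ (Submodule.span_mono ?_ hc) h2
    refine Set.image_mono ?_
    rintro m ⟨hm, hmn⟩
    exact ⟨hm, by omega⟩
  exact (Submodule.smul_mem_iff _ hci).1 h3

variable {Cc : Type} [Field Cc] [CharZero Cc] {Lt : Submodule (QC Cc) Cc} {l : ℕ → Cc}

/-- the span of the smaller products -/
noncomputable def Bel (C : ℕ → ℕ → Prop) (l : ℕ → Cc) (V : Submodule (QC Cc) Cc) (n : ℕ) :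
    Submodule (QC Cc) Cc :=
  Submodule.span (QC Cc) {x | ∃ v ∈ V, ∃ b, Lac C ∅ b ∧ b < n ∧ x = v * lam l b}

theorem mem_Bel {C : ℕ → ℕ → Prop} {V : Submodule (QC Cc) Cc} {n : ℕ} {v : Cc} (hv : v ∈ V) {b : ℕ}
    (hb : Lac C ∅ b) (hbn : b < n) : v * lam l b ∈ Bel C l V n :=
  Submodule.subset_span ⟨v, hv, b, hb, hbn, rfl⟩

theorem Bel_mono {C : ℕ → ℕ → Prop} {V V' : Submodule (QC Cc) Cc} (h : V ≤ V') (n : ℕ) :
    Bel C l V n ≤ Bel C l V' n := by
  refine Submodule.span_mono ?_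
  rintro x ⟨v, hv, b, hb, hbn, rfl⟩
  exact ⟨v, h hv, b, hb, hbn, rfl⟩

theorem Bel_le {C : ℕ → ℕ → Prop} {V : Submodule (QC Cc) Cc} {w : ℕ → Cc} {R : ℕ}
    (hV : ∀ x ∈ V, ∃ c : ℕ → QC Cc, x = ∑ i ∈ range R, c i • w i) (n : ℕ) :
    Bel C l V n ≤ Submodule.span (QC Cc) (vv w l R '' {m | m / R ∈ RS C ∧ m < n * R}) := by
  refine Submodule.span_le.2 ?_
  rintro x ⟨v, hv, b, hb, hbn, rfl⟩
  obtain ⟨c, rfl⟩ := hV v hv
  show (∑ i ∈ range R, c i • w i) * lam l b ∈ _
  rw [Finset.sum_mul]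
  refine Submodule.sum_mem _ fun i hi => ?_
  rw [Finset.mem_range] at hi
  rw [smul_mul_assoc]
  refine Submodule.smul_mem _ _ (Submodule.subset_span ⟨b * R + i, ⟨?_, ?_⟩, ?_⟩)
  · show (b * R + i) / R ∈ RS C
    rw [div_code hi]
    exact hb
  · have h1 : (b + 1) * R ≤ n * R := Nat.mul_le_mul_right R hbn
    have h2 : (b + 1) * R = b * R + R := by ring
    omega
  · rw [vv, div_code hi, mod_code hi]

variable [HypC Lt]

/-- **A thin set of exceptions**, with the statement for the family itself. -/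
theorem struct2 {C : ℕ → ℕ → Prop} (hC : Adm C) (h : Good Lt l) (w : ℕ → Cc) (hw0 : w 0 = 1)
    (R : ℕ) (hR : 0 < R) (hw : LinearIndepOn (QC Cc) w (range R : Set ℕ)) :
    ∃ X : Set ℕ, (∀ N z : ℕ, Bd C N z → cnt X N ≤ 2 * ((R * z) ^ 2 + R)) ∧
      (∀ n : ℕ, Lac C X n → ∀ i < R, n ∈ Gi (QC Cc) (vv w l R) (RS C) R i) ∧
      ∀ n : ℕ, Lac C X n → n ≠ 1 → ∀ i < R, (2 ≤ ArithmeticFunction.cardFactors n ∨ i ≠ 0) →
        n ∈ Gi (QC Cc) (fun m => Lt.mkQ (vv w l R m)) (RS C) R i := by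
  classical
  let G : ℕ → Set ℕ := fun i => Gi (QC Cc) (vv w l R) (RS C) R i
  let Gm : ℕ → Set ℕ := fun i => {a | a ∈ Gi (QC Cc) (vv w l R) (RS C) R i ∧ ¬ (i = 0 ∧ a = 1)}
  let G' : ℕ → Set ℕ := fun i => Gi (QC Cc) (fun m => Lt.mkQ (vv w l R m)) (RS C) R i
  let X : Set ℕ := {n | ∃ i < R, n ∈ EE C (G i) \ G i ∨ n ∈ EE C (Gm i) \ G' i}
  have hG : ∀ n : ℕ, Lac C X n → ∀ i < R, n ∈ G i := by
    intro n hn
    induction hn with
    | one => exact fun i hi => one_mem_Gi C w l hR hw hi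
    | mul a q ha hq hc hX ih =>
      intro i hi
      by_contra h1
      exact hX ⟨i, hi, Or.inl ⟨⟨a, q, rfl, ih i hi, ha.pos, hq, hc⟩, h1⟩⟩
  refine ⟨X, fun N z hb => ?_, hG, fun n hn hn1 i hi hn2 => ?_⟩
  · have h1 : upto X N ⊆ ((range R).biUnion fun i => upto (EE C (G i) \ G i) N) ∪
        ((range R).biUnion fun i => upto (EE C (Gm i) \ G' i) N) := by
      intro n hn
      rw [mem_upto] at hn
      obtain ⟨hn1, i, hi, hn2⟩ := hn
      rw [Finset.mem_union, Finset.mem_biUnion, Finset.mem_biUnion]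
      rcases hn2 with hn2 | hn2
      · exact Or.inl ⟨i, Finset.mem_range.2 hi, mem_upto.2 ⟨hn1, hn2⟩⟩
      · exact Or.inr ⟨i, Finset.mem_range.2 hi, mem_upto.2 ⟨hn1, hn2⟩⟩
    have h2 := (Finset.card_le_card h1).trans (Finset.card_union_le _ _)
    have h3 : ((range R).biUnion fun i => upto (EE C (G i) \ G i) N).card ≤ (R * z) ^ 2 + R :=
      Finset.card_biUnion_le.trans (excR hC h w R hR hb)
    have h4 : ((range R).biUnion fun i => upto (EE C (Gm i) \ G' i) N).card ≤ (R * z) ^ 2 + R :=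
      Finset.card_biUnion_le.trans (excRM hC h w hw0 R hR hb)
    unfold cnt
    omega
  · have hX := hn.notMem hn1
    obtain ⟨a, q, rfl, ha, hq, hc⟩ := hn.fac hn1
    by_contra h1
    refine hX ⟨i, hi, Or.inr ⟨⟨a, q, rfl, ⟨hG a ha i hi, ?_⟩, ha.pos, hq, hc⟩, h1⟩⟩
    rintro ⟨hi0, rfl⟩
    rw [one_mul, ArithmeticFunction.cardFactors_apply_prime hq] at hn2
    omega

/-- **The structure theorem without bases.** -/
theorem structB {C : ℕ → ℕ → Prop} (hC : Adm C) (h : Good Lt l) (W : Submodule (QC Cc) Cc)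
    [FiniteDimensional (QC Cc) W] :
    ∃ X : Set ℕ, (∀ N z : ℕ, Bd C N z → cnt X N ≤ 2 * (((finrank (QC Cc) W + 1) * z) ^ 2 +
        (finrank (QC Cc) W + 1))) ∧
      (∀ n, Lac C X n → ∀ u ∈ W ⊔ Submodule.span (QC Cc) ({1} : Set Cc),
        u * lam l n ∈ Bel C l (W ⊔ Submodule.span (QC Cc) ({1} : Set Cc)) n → u = 0) ∧
      ∀ n, Lac C X n → n ≠ 1 → ∀ u ∈ W ⊔ Submodule.span (QC Cc) ({1} : Set Cc),
        u * lam l n ∈ Lt ⊔ Bel C l (W ⊔ Submodule.span (QC Cc) ({1} : Set Cc)) n →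
        u ∈ Submodule.span (QC Cc) ({1} : Set Cc) ∧
          (2 ≤ ArithmeticFunction.cardFactors n → u = 0) := by
  classical
  -- a complement of the line of `1`
  obtain ⟨P, hP⟩ := Submodule.exists_isCompl (Submodule.span (QC Cc) ({1} : Set Cc))
  let π : Cc →ₗ[QC Cc] Cc := P.subtype ∘ₗ P.projectionOnto _ hP.symm
  let D : Submodule (QC Cc) Cc := W.map π
  have hCP : D ≤ P := by
    rintro _ ⟨x, _, rfl⟩
    exact (P.projectionOnto _ hP.symm x).2
  have hπ : ∀ x, x - π x ∈ Submodule.span (QC Cc) ({1} : Set Cc) := by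
    intro x
    have h1 : P.projectionOnto _ hP.symm (x - π x) = 0 := by
      rw [map_sub]
      have h2 : P.projectionOnto _ hP.symm (π x) = P.projectionOnto _ hP.symm x :=
        Submodule.projectionOnto_apply_left hP.symm _
      rw [h2, sub_self]
    exact (Submodule.projectionOnto_apply_eq_zero_iff hP.symm).1 h1
  have hπ1 : ∀ x ∈ Submodule.span (QC Cc) ({1} : Set Cc), π x = 0 := by
    intro x hx
    have h1 := (Submodule.projectionOnto_apply_eq_zero_iff hP.symm).2 hx
    show ((P.projectionOnto _ hP.symm x : P) : Cc) = 0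
    rw [h1]
    rfl
  let r := finrank (QC Cc) D
  have hr : r ≤ finrank (QC Cc) W := Submodule.finrank_map_le π W
  let b := Module.finBasis (QC Cc) D
  let w : ℕ → Cc := fun i => if hi : i - 1 < r ∧ i ≠ 0 then (b ⟨i - 1, hi.1⟩ : Cc) else 1
  have hw0 : w 0 = 1 := by simp [w]
  have hws : ∀ j : Fin r, w (j.1 + 1) = (b j : Cc) := by
    intro j
    simp [w]
  have hwl : LinearIndepOn (QC Cc) w (range (r + 1) : Set ℕ) := by
    have h1 : LinearIndependent (QC Cc) (Fin.cons 1 (fun j => (b j : Cc)) : Fin (r + 1) → Cc) := by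
      rw [linearIndependent_finCons]
      refine ⟨b.linearIndependent.map' D.subtype (Submodule.ker_subtype _), fun h2 => ?_⟩
      have h3 : (1 : Cc) ∈ D := by
        refine (Submodule.span_le.2 ?_) h2
        rintro _ ⟨j, rfl⟩
        exact (b j).2
      have h4 : (1 : Cc) ∈ Submodule.span (QC Cc) ({1} : Set Cc) ⊓ P :=
        ⟨Submodule.mem_span_singleton_self 1, hCP h3⟩
      rw [hP.inf_eq_bot, Submodule.mem_bot] at h4
      exact one_ne_zero h4
    have h5 : ∀ i : Fin (r + 1), w i.1 = (Fin.cons 1 (fun j => (b j : Cc)) : Fin (r + 1) → Cc) i := by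
      intro i
      refine Fin.cases ?_ (fun j => ?_) i
      · rw [Fin.cons_zero]; exact hw0
      · rw [Fin.cons_succ, Fin.val_succ]; exact hws j
    let e : (range (r + 1) : Set ℕ) → Fin (r + 1) := fun x =>
      ⟨x.1, Finset.mem_range.1 (by exact_mod_cast x.2)⟩
    have h6 := h1.comp e (fun x y hxy => Subtype.ext (by simpa [e] using hxy))
    have h7 : ((Fin.cons 1 (fun j => (b j : Cc)) : Fin (r + 1) → Cc) ∘ e) =
        fun x : (range (r + 1) : Set ℕ) => w x.1 := by
      funext x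
      exact (h5 (e x)).symm
    rw [h7] at h6
    exact h6
  -- coordinates
  have hcoord : ∀ x ∈ W ⊔ Submodule.span (QC Cc) ({1} : Set Cc),
      ∃ c : ℕ → QC Cc, x = ∑ i ∈ range (r + 1), c i • w i := by
    intro x hx
    obtain ⟨a, ha⟩ := Submodule.mem_span_singleton.1 (hπ x)
    have h1 : π x ∈ D := by
      obtain ⟨y, hy, t, ht, rfl⟩ := Submodule.mem_sup.1 hx
      rw [map_add, hπ1 t ht, add_zero]
      exact ⟨y, hy, rfl⟩
    refine ⟨fun i => if hi : i - 1 < r ∧ i ≠ 0 then b.repr ⟨π x, h1⟩ ⟨i - 1, hi.1⟩ else a, ?_⟩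
    rw [Finset.sum_range_succ']
    have h2 : ∑ i ∈ range r, (if hi : i + 1 - 1 < r ∧ i + 1 ≠ 0 then
        b.repr ⟨π x, h1⟩ ⟨i + 1 - 1, hi.1⟩ else a) • w (i + 1) = π x := by
      rw [← Fin.sum_univ_eq_sum_range (fun i => (if hi : i + 1 - 1 < r ∧ i + 1 ≠ 0 then
        b.repr ⟨π x, h1⟩ ⟨i + 1 - 1, hi.1⟩ else a) • w (i + 1)) r]
      have h3 := congrArg (D.subtype) (b.sum_repr ⟨π x, h1⟩)
      rw [map_sum] at h3
      simp only [map_smul, Submodule.subtype_apply] at h3
      refine Eq.trans (Finset.sum_congr rfl fun j _ => ?_) h3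
      rw [hws j]
      simp
    rw [h2]
    simp only [ne_eq, not_true_eq_false, and_false, ↓reduceDIte, hw0]
    rw [ha]
    ring
  obtain ⟨X, hX1, hX2, hX3⟩ := struct2 hC h w hw0 (r + 1) (Nat.succ_pos r) hwl
  have hBel := fun n => Bel_le (C := C) (l := l) hcoord n
  refine ⟨X, fun N z hb => (hX1 N z hb).trans ?_, fun n hn u hu hul => ?_,
    fun n hn hn1 u hu hul => ?_⟩
  · refine Nat.mul_le_mul_left 2 (Nat.add_le_add (Nat.pow_le_pow_left ?_ 2) ?_)
    · exact Nat.mul_le_mul_right z (by omega)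
    · omega
  · obtain ⟨c, rfl⟩ := hcoord u hu
    have hnS : n ∈ RS C := hn.mono (Set.empty_subset X)
    have h1 : ∑ i ∈ range (r + 1), c i • vv w l (r + 1) (n * (r + 1) + i) =
        (∑ i ∈ range (r + 1), c i • w i) * lam l n := by
      rw [Finset.sum_mul]
      refine Finset.sum_congr rfl fun i hi => ?_
      rw [Finset.mem_range] at hi
      rw [vv, div_code hi, mod_code hi, smul_mul_assoc]
    have h2 := top_coef (vv w l (r + 1)) (RS C) hnS c (fun i hi _ => hX2 n hn i hi) (by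
      rw [h1]
      exact hBel n hul)
    refine Finset.sum_eq_zero fun i hi => ?_
    rw [h2 i (Finset.mem_range.1 hi), zero_smul]
  · obtain ⟨c, rfl⟩ := hcoord u hu
    have hnS : n ∈ RS C := hn.mono (Set.empty_subset X)
    have key : ∀ c' : ℕ → QC Cc,
        (∀ i < r + 1, c' i ≠ 0 → 2 ≤ ArithmeticFunction.cardFactors n ∨ i ≠ 0) →
        (∑ i ∈ range (r + 1), c' i • w i) * lam l n ∈
          Lt ⊔ Bel C l (W ⊔ Submodule.span (QC Cc) ({1} : Set Cc)) n →
        ∀ i < r + 1, c' i = 0 := by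
      intro c' hc' hul'
      have h1 : ∑ i ∈ range (r + 1), c' i • Lt.mkQ (vv w l (r + 1) (n * (r + 1) + i)) =
          Lt.mkQ ((∑ i ∈ range (r + 1), c' i • w i) * lam l n) := by
        rw [Finset.sum_mul, map_sum]
        refine Finset.sum_congr rfl fun i hi => ?_
        rw [Finset.mem_range] at hi
        rw [vv, div_code hi, mod_code hi, smul_mul_assoc, map_smul]
      refine top_coef (fun m => Lt.mkQ (vv w l (r + 1) m)) (RS C) hnS c'
        (fun i hi hci => hX3 n hn hn1 i hi (hc' i hi hci)) ?_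
      show ∑ i ∈ range (r + 1), c' i • Lt.mkQ (vv w l (r + 1) (n * (r + 1) + i)) ∈ _
      rw [h1]
      obtain ⟨x, hx, y, hy, hxy⟩ := Submodule.mem_sup.1 hul'
      have hx0 : Lt.mkQ x = 0 := (Submodule.Quotient.mk_eq_zero Lt).2 hx
      rw [← hxy, map_add, hx0, zero_add]
      have h3 := Submodule.mem_map_of_mem (f := Lt.mkQ) (hBel n hy)
      rw [Submodule.map_span, ← Set.image_comp] at h3
      exact h3
    rcases Nat.lt_or_ge (ArithmeticFunction.cardFactors n) 2 with h2 | h2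
    · -- `n` is a prime
      have hn0 : n ≠ 0 := hn.pos.ne'
      have hpr : n.Prime := by
        rw [← ArithmeticFunction.cardFactors_eq_one_iff_prime]
        have h3 : ArithmeticFunction.cardFactors n ≠ 0 := fun h3 => by
          rw [ArithmeticFunction.cardFactors_eq_zero_iff_eq_zero_or_one] at h3
          omega
        omega
      have hlt : lam l n ∈ Lt := h.mem' (Or.inr hpr)
      let c' : ℕ → QC Cc := fun i => if i = 0 then 0 else c i
      have hsum : ∑ i ∈ range (r + 1), c i • w i =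
          c 0 • w 0 + ∑ i ∈ range (r + 1), c' i • w i := by
        rw [Finset.sum_range_succ' (fun i => c i • w i), Finset.sum_range_succ' (fun i => c' i • w i)]
        simp [c', add_comm]
      have h3 := key c' (fun i _ hci => Or.inr fun h0 => hci (by simp [c', h0])) (by
        have h4 : (∑ i ∈ range (r + 1), c' i • w i) * lam l n =
            (∑ i ∈ range (r + 1), c i • w i) * lam l n - c 0 • lam l n := by
          rw [hsum, hw0, add_mul, smul_mul_assoc, one_mul, add_sub_cancel_left]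
        rw [h4]
        exact Submodule.sub_mem _ hul (Submodule.mem_sup_left (Lt.smul_mem _ hlt)))
      have h4 : ∑ i ∈ range (r + 1), c i • w i = c 0 • (1 : Cc) := by
        rw [hsum, hw0, add_eq_left]
        refine Finset.sum_eq_zero fun i hi => ?_
        rw [h3 i (Finset.mem_range.1 hi), zero_smul]
      refine ⟨?_, fun h5 => absurd h5 (by omega)⟩
      rw [h4]
      exact Submodule.smul_mem _ _ (Submodule.mem_span_singleton_self 1)
    · have h3 := key c (fun i _ _ => Or.inl h2) hul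
      have h4 : ∑ i ∈ range (r + 1), c i • w i = 0 := by
        refine Finset.sum_eq_zero fun i hi => ?_
        rw [h3 i (Finset.mem_range.1 hi), zero_smul]
      rw [h4]
      exact ⟨Submodule.zero_mem _, fun _ => rfl⟩

end Pool.Agent.Q147.MP
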